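import Pool.Agent.Helper15.UH.Goals

/-!
# MP_ba83fc_ag, packet QUAD
Values of a valuation on a quadratic extension `F(θ)` when `w(θ)` is a value of `F` and `w(2)=1`.
-/

namespace UnrCoh

theorem quad_repr {E : Type} [Field E] (F : Subfield E) (θ : E) (hθ : θ ^ 2 ∈ F) :
    ∀ g ∈ Subfield.closure ((F : Set E) ∪ {θ}), ∃ α ∈ F, ∃ β ∈ F, g = α + β * θ := by
  intro g hg
  induction hg using Subfield.closure_induction with
  | mem x hx =>
    rcases hx with hx | hx
    · exact ⟨x, hx, 0, F.zero_mem, by ring⟩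
    · rw [Set.mem_singleton_iff] at hx
      exact ⟨0, F.zero_mem, 1, F.one_mem, by rw [hx]; ring⟩
  | one => exact ⟨1, F.one_mem, 0, F.zero_mem, by ring⟩
  | add x y _ _ hx hy =>
    obtain ⟨a, ha, b, hb, rfl⟩ := hx
    obtain ⟨a', ha', b', hb', rfl⟩ := hy
    exact ⟨a + a', F.add_mem ha ha', b + b', F.add_mem hb hb', by ring⟩
  | neg x _ hx =>
    obtain ⟨a, ha, b, hb, rfl⟩ := hx
    exact ⟨-a, F.neg_mem ha, -b, F.neg_mem hb, by ring⟩
  | inv x _ hx =>
    obtain ⟨a, ha, b, hb, rfl⟩ := hx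
    have hDmem : a ^ 2 - b ^ 2 * θ ^ 2 ∈ F :=
      F.sub_mem (pow_mem ha 2) (F.mul_mem (pow_mem hb 2) hθ)
    by_cases hD : a ^ 2 - b ^ 2 * θ ^ 2 = 0
    · by_cases hx0 : a + b * θ = 0
      · exact ⟨0, F.zero_mem, 0, F.zero_mem, by rw [hx0]; simp⟩
      · have h1 : (a + b * θ) * (a - b * θ) = 0 := by
          rw [← hD]; ring
        have h2 : a - b * θ = 0 := by
          rcases mul_eq_zero.mp h1 with h | h
          · exact absurd h hx0
          · exact h
        have h3 : a + b * θ = a + a := by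
          rw [sub_eq_zero] at h2
          rw [← h2]
        refine ⟨(a + a)⁻¹, F.inv_mem (F.add_mem ha ha), 0, F.zero_mem, ?_⟩
        rw [h3]; ring
    · have hx0 : a + b * θ ≠ 0 := by
        intro h
        apply hD
        have : a ^ 2 - b ^ 2 * θ ^ 2 = (a + b * θ) * (a - b * θ) := by ring
        rw [this, h, zero_mul]
      refine ⟨a / (a ^ 2 - b ^ 2 * θ ^ 2), F.div_mem ha hDmem,
        -b / (a ^ 2 - b ^ 2 * θ ^ 2), F.div_mem (F.neg_mem hb) hDmem, ?_⟩
      have h4 : (a / (a ^ 2 - b ^ 2 * θ ^ 2) + -b / (a ^ 2 - b ^ 2 * θ ^ 2) * θ)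
          * (a + b * θ) = 1 := by
        field_simp
        ring
      exact (eq_inv_of_mul_eq_one_left h4).symm
  | mul x y _ _ hx hy =>
    obtain ⟨a, ha, b, hb, rfl⟩ := hx
    obtain ⟨a', ha', b', hb', rfl⟩ := hy
    refine ⟨a * a' + b * b' * θ ^ 2, F.add_mem (F.mul_mem ha ha')
      (F.mul_mem (F.mul_mem hb hb') hθ), a * b' + b * a',
      F.add_mem (F.mul_mem ha hb') (F.mul_mem hb ha'), by ring⟩

theorem quad : S_QUAD := by
  intro E _ W h2 F θ hθ hd g hg hg0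
  obtain ⟨d, hdF, hdv⟩ := hd
  obtain ⟨a, ha, b, hb, rfl⟩ := quad_repr F θ hθ g hg
  by_cases hg' : a - b * θ = 0
  · have h3 : a + b * θ = 2 * a := by
      rw [sub_eq_zero] at hg'
      rw [← hg']; ring
    refine ⟨a, ha, ?_, ?_⟩
    · rintro rfl
      apply hg0
      rw [h3]; ring
    · rw [h3, map_mul, h2, one_mul]
  · set w := W.valuation with hw
    have hbθ : w (b * θ) = w (b * d) := by rw [map_mul, map_mul, hdv]
    have hmax1 : w (a + b * θ) ≤ max (w a) (w (b * θ)) := w.map_add _ _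
    have hmax2 : w (a - b * θ) ≤ max (w a) (w (b * θ)) := w.map_sub _ _
    have hmax3 : w a ≤ max (w (a + b * θ)) (w (a - b * θ)) := by
      have h4 : w a = w ((a + b * θ) + (a - b * θ)) := by
        have : (a + b * θ) + (a - b * θ) = 2 * a := by ring
        rw [this, map_mul, h2, one_mul]
      rw [h4]
      exact w.map_add _ _
    have hmax4 : w (b * θ) ≤ max (w (a + b * θ)) (w (a - b * θ)) := by
      have h4 : w (b * θ) = w ((a + b * θ) - (a - b * θ)) := by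
        have : (a + b * θ) - (a - b * θ) = 2 * (b * θ) := by ring
        rw [this, map_mul w 2 (b * θ), h2, one_mul]
      rw [h4]
      exact w.map_sub _ _
    have hmax : max (w (a + b * θ)) (w (a - b * θ)) = max (w a) (w (b * θ)) :=
      le_antisymm (max_le hmax1 hmax2) (max_le hmax3 hmax4)
    -- choose γ₁
    obtain ⟨γ₁, hγ₁F, hγ₁⟩ : ∃ γ₁ ∈ F, max (w a) (w (b * θ)) = w γ₁ := by
      rcases max_choice (w a) (w (b * θ)) with h | h
      · exact ⟨a, ha, h⟩
      · exact ⟨b * d, F.mul_mem hb hdF, by rw [h, hbθ]⟩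
    have hγ₁0 : γ₁ ≠ 0 := by
      rintro rfl
      rw [map_zero] at hγ₁
      rw [hγ₁] at hmax1
      exact hg0 (w.zero_iff.mp (le_zero_iff.mp hmax1))
    have hprod : w (a + b * θ) * w (a - b * θ) = w (a ^ 2 - b ^ 2 * θ ^ 2) := by
      rw [← map_mul]; congr 1; ring
    have hγ₂F : a ^ 2 - b ^ 2 * θ ^ 2 ∈ F :=
      F.sub_mem (pow_mem ha 2) (F.mul_mem (pow_mem hb 2) hθ)
    have hγ₂0 : a ^ 2 - b ^ 2 * θ ^ 2 ≠ 0 := by
      have : a ^ 2 - b ^ 2 * θ ^ 2 = (a + b * θ) * (a - b * θ) := by ring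
      rw [this]
      exact mul_ne_zero hg0 hg'
    rcases le_total (w (a - b * θ)) (w (a + b * θ)) with h | h
    · rw [max_eq_left h, hγ₁] at hmax
      exact ⟨γ₁, hγ₁F, hγ₁0, hmax⟩
    · rw [max_eq_right h, hγ₁] at hmax
      refine ⟨(a ^ 2 - b ^ 2 * θ ^ 2) / γ₁, F.div_mem hγ₂F hγ₁F, div_ne_zero hγ₂0 hγ₁0, ?_⟩
      rw [map_div₀, ← hprod, hmax, mul_div_assoc, div_self, mul_one]
      exact (w.ne_zero_iff).mpr hγ₁0

end UnrCoh
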